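import Pool.Agent.H84.KleinPi
import Pool.Agent.H84.FinDom
import Pool.Agent.H84.DihedralK1

/-!
# `K(Q,1)` need not be finitely dominated

The Klein bottle `X` has a three-fold self-covering (take `X' = X` and `h` the identity) for which
the subgroup `G` of the fundamental group is infinite cyclic and normal, while the quotient `Q` is
the infinite dihedral group, so that no `K(Q,1)` is finitely dominated.
-/

open Topology

namespace Pool.Agent.Results.MP_ffafe4_gt.KleinSelfCover

open Pool.Agent.H84

universe u v

/-- There is a connected finite CW complex `X`, covered by the plane, with data `S = (q, h)` as in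
the problem, such that `G` is normal and finitely presented (even infinite cyclic), but no
`K(Q,1)` for the quotient `Q` of the fundamental group by `G` is finitely dominated; such `K(Q,1)`
exist. -/
theorem result :
    ∃ (X : Type) (_ : TopologicalSpace X) (_ : T2Space X) (_ : PathConnectedSpace X)
      (_ : CWComplex (Set.univ : Set X)) (S : SelfCover X) (_ : S.G.Normal),
      CWComplex.Finite (Set.univ : Set X) ∧
      (∃ p : ℝ × ℝ → X, IsCoveringMap p) ∧
      Group.IsFinitelyPresented S.G ∧
      Nonempty (S.G ≃* Multiplicative ℤ) ∧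
      Nonempty (FundamentalGroup X S.x₀ ⧸ S.G ≃* DihedralGroup 0) ∧
      (∃ (Y : Type) (_ : TopologicalSpace Y), IsK1 (FundamentalGroup X S.x₀ ⧸ S.G) Y) ∧
      ∀ (Y : Type u) (_ : TopologicalSpace Y), IsK1 (FundamentalGroup X S.x₀ ⧸ S.G) Y →
        ¬ FinitelyDominated.{u, v} Y := by
  refine ⟨Klein, inferInstance, inferInstance, inferInstance, kleinCW, kleinSC, G_normal,
    kleinCW_finite, ⟨kp, kp_qc.isCoveringMap⟩, inferInstance, ⟨GEquiv.symm⟩, ⟨quotEquiv⟩,
    ⟨YD, inferInstance, isK1_YD.congr quotEquiv.symm⟩, ?_⟩
  intro Y _ hY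
  refine not_finitelyDominated (DihedralGroup.sr 0) ?_ (DihedralGroup.sr_mul_self 0)
    (hY.congr quotEquiv)
  rw [DihedralGroup.one_def]
  intro h
  cases h

end Pool.Agent.Results.MP_ffafe4_gt.KleinSelfCover
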